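import Pool.Agent.TH724.Luz.Main

/-!
# A Luzin set gives a Luzin subgroup

If `ℝⁿ` has a Luzin set (an `ℵ₁`-Luzin set for the ideal of meagre sets) then some `ℚ`-linear
subspace of `ℝⁿ` is a Luzin set. More generally this holds for `κ`-Luzin sets for the meagre ideal
if `κ` is regular, uncountable and every family of fewer than `κ` functions on `ℕ` with a common
bound is localized by a slalom.
-/

set_option autoImplicit false

open Filter Cardinal

namespace Pool.Agent.Results.MP_6ff61e_lc.LuzinSubspace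

/-- `X` is a `κ`-Luzin set for the ideal of meagre sets -/
def IsLuzin {n : ℕ} (κ : Cardinal.{0}) (X : Set (Fin n → ℝ)) : Prop :=
  κ ≤ #X ∧ ∀ A : Set (Fin n → ℝ), IsMeagre A → #(X ∩ A : Set (Fin n → ℝ)) < κ

/-- Every family `H` of fewer than `κ` functions with a common bound `b` is localized by a slalom:
finite sets `S i` with at most `i + 1` elements such that `h i ∈ S i` for almost all `i`, for all
`h ∈ H`. -/
def Localized (κ : Cardinal.{0}) : Prop :=
  ∀ (b : ℕ → ℕ) (H : Set (ℕ → ℕ)), #H < κ → (∀ h ∈ H, ∀ i, h i ≤ b i) →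
    ∃ S : ℕ → Finset ℕ, (∀ i, (S i).card ≤ i + 1) ∧ ∀ h ∈ H, ∀ᶠ i in atTop, h i ∈ S i

theorem general (κ : Cardinal.{0}) (hreg : κ.IsRegular) (hκ : ℵ₀ < κ) (hloc : Localized κ)
    (n : ℕ) (X : Set (Fin n → ℝ)) (hX : IsLuzin κ X) :
    ∃ V : Submodule ℚ (Fin n → ℝ), IsLuzin κ (V : Set (Fin n → ℝ)) := by
  cases n with
  | zero =>
    exfalso
    have h1 : #X ≤ 1 := by
      rw [le_one_iff_subsingleton]
      infer_instance
    exact absurd (hX.1.trans h1) (not_le.2 (one_lt_aleph0.trans hκ))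
  | succ m =>
    obtain ⟨V, h1, h2⟩ := TH724.Luz.main hreg hκ hloc X hX.1 hX.2
    exact ⟨V, h1, h2⟩

theorem result :
    -- Luzin sets
    (∀ (n : ℕ) (X : Set (Fin n → ℝ)), IsLuzin (Cardinal.aleph 1) X →
      ∃ V : Submodule ℚ (Fin n → ℝ), IsLuzin (Cardinal.aleph 1) (V : Set (Fin n → ℝ))) ∧
    -- `κ`-Luzin sets
    (∀ κ : Cardinal.{0}, κ.IsRegular → ℵ₀ < κ → Localized κ → ∀ (n : ℕ) (X : Set (Fin n → ℝ)),
      IsLuzin κ X → ∃ V : Submodule ℚ (Fin n → ℝ), IsLuzin κ (V : Set (Fin n → ℝ))) := by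
  refine ⟨fun n X hX => ?_, general⟩
  exact general _ isRegular_aleph_one aleph0_lt_aleph_one TH724.Luz.loc_aleph_one n X hX

end Pool.Agent.Results.MP_6ff61e_lc.LuzinSubspace
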